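import Mathlib
import Pool.Agent.MP_3bf391_gt.Defs

-- part MP_3bf391_gt.Support
section

/-! Countable supports for continuous functions on a perfectly normal compact space. -/

namespace Pool.Agent.MP_3bf391_gt

open Set Topology

/-- Transfinite compactness: extend a point along a well order, using compactness at limits. -/
theorem transfinite_compact {K : Type*} [TopologicalSpace K] [CompactSpace K]
    {ι : Type*} [LinearOrder ι] [WellFoundedLT ι]
    (D : Set K) (hD : IsClosed D) (hne : D.Nonempty) (E : ι → Set K) (hE : ∀ i, IsClosed (E i))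
    (step : ∀ i, ∀ z ∈ D, (∀ j < i, z ∈ E j) → ∃ z' ∈ D, ∀ j ≤ i, z' ∈ E j) :
    ∃ z ∈ D, ∀ i, z ∈ E i := by
  have aux : ∀ L : Set ι, (∀ i ∈ L, ∃ z ∈ D, ∀ j ≤ i, z ∈ E j) →
      ∃ z ∈ D, ∀ i ∈ L, z ∈ E i := by
    intro L hL
    rcases L.eq_empty_or_nonempty with rfl | hLne
    · obtain ⟨z, hz⟩ := hne
      exact ⟨z, hz, fun i hi => absurd hi (notMem_empty i)⟩
    · have : Nonempty L := hLne.to_subtype
      let t : L → Set K := fun i => D ∩ ⋂ j ∈ Iic (i : ι), E j
      have htc : ∀ i, IsClosed (t i) := fun i =>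
        hD.inter (isClosed_biInter fun j _ => hE j)
      have hanti : ∀ a b : L, a ≤ b → t b ⊆ t a := by
        intro a b hab z hz
        refine ⟨hz.1, mem_iInter₂.2 fun j hj => ?_⟩
        exact mem_iInter₂.1 hz.2 j (le_trans hj hab)
      have hdir : Directed (· ⊇ ·) t := by
        intro a b
        rcases le_total a b with h | h
        · exact ⟨b, hanti a b h, subset_rfl⟩
        · exact ⟨a, subset_rfl, hanti b a h⟩
      have hn : ∀ i, (t i).Nonempty := by
        intro i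
        obtain ⟨z, hz, hz'⟩ := hL i i.2
        exact ⟨z, hz, mem_iInter₂.2 fun j hj => hz' j hj⟩
      obtain ⟨z, hz⟩ := IsCompact.nonempty_iInter_of_directed_nonempty_isCompact_isClosed t hdir hn
        (fun i => (htc i).isCompact) htc
      obtain ⟨i₀⟩ := (inferInstance : Nonempty L)
      refine ⟨z, (mem_iInter.1 hz i₀).1, fun i hi => ?_⟩
      exact mem_iInter₂.1 (mem_iInter.1 hz ⟨i, hi⟩).2 i (le_refl i)
  have key : ∀ i, ∃ z ∈ D, ∀ j ≤ i, z ∈ E j := by
    intro i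
    induction i using WellFoundedLT.induction with
    | ind i ih =>
      obtain ⟨z, hz, hz'⟩ := aux (Iio i) (fun j hj => ih j hj)
      exact step i z hz (fun j hj => hz' j hj)
  obtain ⟨z, hz, hz'⟩ := aux univ (fun i _ => key i)
  exact ⟨z, hz, fun i => hz' i (mem_univ i)⟩

/-- A closed set that is saturated for agreement on a family of continuous functions is already
saturated for agreement on a countable subfamily. -/
theorem countable_saturation {K : Type*} [TopologicalSpace K] [CompactSpace K]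
    [PerfectlyNormalSpace K] {ι : Type*} (g : ι → K → ℝ) (hg : ∀ i, Continuous (g i))
    (L : Set ι) (Z : Set K) (hZ : IsClosed Z)
    (hsat : ∀ x y, (∀ i ∈ L, g i x = g i y) → y ∈ Z → x ∈ Z) :
    ∃ B : Set ι, B ⊆ L ∧ B.Countable ∧ ∀ x y, (∀ i ∈ B, g i x = g i y) → y ∈ Z → x ∈ Z := by
  obtain ⟨U, hUo, hU⟩ := hZ.isGδ.eq_iInter_nat
  have h1 : ∀ n : ℕ, ∃ B : Set ι, B ⊆ L ∧ B.Finite ∧
      ∀ x y, (∀ i ∈ B, g i x = g i y) → y ∈ Z → x ∈ U n := by
    intro n
    have hc : IsCompact ((U n)ᶜ ×ˢ Z) :=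
      (hUo n).isClosed_compl.isCompact.prod hZ.isCompact
    obtain ⟨B, hBL, hBf, hB⟩ := hc.elim_finite_subcover_image (b := L)
      (c := fun i => {p : K × K | g i p.1 ≠ g i p.2})
      (fun i _ => isOpen_ne_fun ((hg i).comp continuous_fst) ((hg i).comp continuous_snd))
      (by
        rintro ⟨x, y⟩ ⟨hx, hy⟩
        by_contra hcon
        simp only [mem_iUnion, mem_ofPred_eq, not_exists, not_not] at hcon
        have hxZ : x ∈ Z := hsat x y (fun i hi => hcon i hi) hy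
        rw [hU] at hxZ
        exact hx (mem_iInter.1 hxZ n))
    refine ⟨B, hBL, hBf, fun x y hxy hy => ?_⟩
    by_contra hx
    have := hB (show (x, y) ∈ (U n)ᶜ ×ˢ Z from ⟨hx, hy⟩)
    simp only [mem_iUnion, mem_ofPred_eq] at this
    obtain ⟨i, hi, hne⟩ := this
    exact hne (hxy i hi)
  choose B hBL hBf hB using h1
  refine ⟨⋃ n, B n, iUnion_subset hBL, countable_iUnion fun n => (hBf n).countable, ?_⟩
  intro x y hxy hy
  rw [hU]
  exact mem_iInter.2 fun n => hB n x y (fun i hi => hxy i (mem_iUnion.2 ⟨n, hi⟩)) hy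

/-- The one-step extension data: a countable set of earlier coordinates that decides which
values the coordinate `η` takes on a class of points agreeing below `η`. -/
theorem exists_step_support {K : Type*} [TopologicalSpace K] [CompactSpace K]
    [PerfectlyNormalSpace K] {ι : Type*} [LinearOrder ι] (g : ι → K → ℝ)
    (hg : ∀ i, Continuous (g i)) (η : ι) :
    ∃ B : Set ι, B ⊆ Iio η ∧ B.Countable ∧ ∀ x y, (∀ i ∈ B, g i x = g i y) →
      ∃ y', (∀ i < η, g i y' = g i y) ∧ g η y' = g η x := by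
  let Z : ℚ × ℚ → Set K := fun q =>
    {x | ∃ x', (∀ i < η, g i x' = g i x) ∧ g η x' ∈ Icc (q.1 : ℝ) q.2}
  have hZc : ∀ q, IsClosed (Z q) := by
    intro q
    have hcl : IsClosed {p : K × K | (∀ i < η, g i p.2 = g i p.1) ∧
        g η p.2 ∈ Icc (q.1 : ℝ) q.2} := by
      apply IsClosed.inter
      · have : {p : K × K | ∀ i < η, g i p.2 = g i p.1} =
            ⋂ i ∈ Iio η, {p : K × K | g i p.2 = g i p.1} := by
          ext p; simp
        change IsClosed {p : K × K | ∀ i < η, g i p.2 = g i p.1}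
        rw [this]
        exact isClosed_biInter fun i _ =>
          isClosed_eq ((hg i).comp continuous_snd) ((hg i).comp continuous_fst)
      · exact isClosed_Icc.preimage ((hg η).comp continuous_snd)
    have := isClosedMap_fst_of_compactSpace _ hcl
    convert this using 1
    ext x
    simp only [Z, mem_ofPred_eq, mem_image, Prod.exists, exists_and_right, exists_eq_right]
  have h1 : ∀ q, ∃ B : Set ι, B ⊆ Iio η ∧ B.Countable ∧
      ∀ x y, (∀ i ∈ B, g i x = g i y) → y ∈ Z q → x ∈ Z q := by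
    intro q
    refine countable_saturation g hg (Iio η) (Z q) (hZc q) ?_
    rintro x y hxy ⟨x', hx', hq⟩
    exact ⟨x', fun i hi => (hx' i hi).trans (hxy i hi).symm, hq⟩
  choose B hBL hBc hB using h1
  refine ⟨⋃ q, B q, iUnion_subset hBL, countable_iUnion hBc, fun x y hxy => ?_⟩
  have hcls : IsClosed {y' | ∀ i < η, g i y' = g i y} := by
    have : {y' | ∀ i < η, g i y' = g i y} = ⋂ i ∈ Iio η, {y' | g i y' = g i y} := by
      ext p; simp
    rw [this]
    exact isClosed_biInter fun i _ => isClosed_eq (hg i) continuous_const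
  have hcomp : IsClosed (g η '' {y' | ∀ i < η, g i y' = g i y}) :=
    (hcls.isCompact.image (hg η)).isClosed
  have hmem : g η x ∈ closure (g η '' {y' | ∀ i < η, g i y' = g i y}) := by
    rw [Metric.mem_closure_iff]
    intro ε hε
    obtain ⟨a, ha1, ha2⟩ := exists_rat_btwn (show g η x - ε < g η x by linarith)
    obtain ⟨b, hb1, hb2⟩ := exists_rat_btwn (show g η x < g η x + ε by linarith)
    have hx : x ∈ Z (a, b) := ⟨x, fun _ _ => rfl, ha2.le, hb1.le⟩
    obtain ⟨y', hy', hq1, hq2⟩ := hB (a, b) y x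
      (fun i hi => (hxy i (mem_iUnion.2 ⟨(a, b), hi⟩)).symm) hx
    refine ⟨g η y', ⟨y', hy', rfl⟩, ?_⟩
    rw [Real.dist_eq, abs_lt]
    simp only at hq1 hq2
    constructor <;> linarith
  rw [hcomp.closure_eq] at hmem
  obtain ⟨y', hy', h⟩ := hmem
  exact ⟨y', hy', h⟩

theorem countable_reflTransGen {ι : Type*} (B : ι → Set ι) (hB : ∀ i, (B i).Countable) (η : ι) :
    {ξ | Relation.ReflTransGen (fun a b => b ∈ B a) η ξ}.Countable := by
  let T : ℕ → Set ι := fun n => Nat.rec {η} (fun _ S => ⋃ a ∈ S, B a) n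
  have hT : ∀ n, (T n).Countable := by
    intro n
    induction n with
    | zero => exact countable_singleton η
    | succ n ih => exact ih.biUnion fun a _ => hB a
  refine (countable_iUnion hT).mono ?_
  intro ξ hξ
  induction hξ with
  | refl => exact mem_iUnion.2 ⟨0, rfl⟩
  | tail _ hbc ih =>
    obtain ⟨n, hn⟩ := mem_iUnion.1 ih
    exact mem_iUnion.2 ⟨n + 1, mem_iUnion₂.2 ⟨_, hn, hbc⟩⟩

/-- Countable hulls with the lifting property. -/
theorem exists_hull {K : Type*} [TopologicalSpace K] [CompactSpace K]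
    [PerfectlyNormalSpace K] {ι : Type*} [LinearOrder ι] [WellFoundedLT ι] (g : ι → K → ℝ)
    (hg : ∀ i, Continuous (g i)) :
    ∃ H : ι → Set ι, (∀ η, (H η).Countable) ∧ (∀ η, η ∈ H η) ∧
      (∀ η ξ, ξ ∈ H η → H ξ ⊆ H η) ∧
      ∀ σ x y, (∀ i < σ, g i x = g i y) →
        ∃ y', (∀ i ≤ σ, g i y' = g i y) ∧ ∀ η, σ ∉ H η → g η y' = g η x := by
  choose B hBL hBc hB using exists_step_support g hg
  let H : ι → Set ι := fun η => {ξ | Relation.ReflTransGen (fun a b => b ∈ B a) η ξ}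
  have hself : ∀ η, η ∈ H η := fun η => Relation.ReflTransGen.refl
  have htrans : ∀ η ξ, ξ ∈ H η → H ξ ⊆ H η := fun η ξ h ζ hζ =>
    Relation.ReflTransGen.trans h hζ
  refine ⟨H, countable_reflTransGen B hBc, hself, htrans, fun σ x y hxy => ?_⟩
  have hD : IsClosed {y' | ∀ i ≤ σ, g i y' = g i y} := by
    have : {y' | ∀ i ≤ σ, g i y' = g i y} = ⋂ i ∈ Iic σ, {y' | g i y' = g i y} := by
      ext p; simp
    rw [this]
    exact isClosed_biInter fun i _ => isClosed_eq (hg i) continuous_const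
  have hE : ∀ η, IsClosed {y' | σ ∉ H η → g η y' = g η x} := by
    intro η
    by_cases h : σ ∈ H η
    · simp [h]
    · simpa [h] using isClosed_eq (hg η) continuous_const
  obtain ⟨z, hz, hz'⟩ := transfinite_compact {y' | ∀ i ≤ σ, g i y' = g i y} hD
    ⟨y, fun _ _ => rfl⟩ (fun η => {y' | σ ∉ H η → g η y' = g η x}) hE (by
      intro η z hz hlt
      by_cases hσ : σ ∈ H η
      · refine ⟨z, hz, fun j hj => ?_⟩
        rcases hj.lt_or_eq with hj | rfl
        · exact hlt j hj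
        · exact fun h => absurd hσ h
      rcases lt_trichotomy η σ with hησ | rfl | hησ
      · refine ⟨z, hz, fun j hj => ?_⟩
        rcases hj.lt_or_eq with hj | rfl
        · exact hlt j hj
        · exact fun _ => (hz j hησ.le).trans (hxy j hησ).symm
      · exact absurd (hself _) hσ
      · obtain ⟨z', hz1, hz2⟩ := hB η x z (fun i hi => by
          have hi' : i ∈ H η := Relation.ReflTransGen.single hi
          exact (hlt i (hBL η hi) (fun h => hσ (htrans η i hi' h))).symm)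
        refine ⟨z', fun i hi => (hz1 i (lt_of_le_of_lt hi hησ)).trans (hz i hi), fun j hj => ?_⟩
        rcases hj.lt_or_eq with hj | rfl
        · exact fun h => (hz1 j hj).trans (hlt j hj h)
        · exact fun _ => hz2)
  exact ⟨z, hz, hz'⟩

/-- The support theorem. -/
theorem exists_support {K : Type*} [TopologicalSpace K] [CompactSpace K]
    [PerfectlyNormalSpace K] :
    ∃ A : {f : K → ℝ // Continuous f} → Set {f : K → ℝ // Continuous f},
      (∀ f, (A f).Countable) ∧ (∀ η, IsOpen {f | η ∈ A f}) ∧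
      ∀ f x y, (∀ η ∈ A f, η.1 x = η.1 y) → f.1 x = f.1 y := by
  obtain ⟨wo, hwf⟩ := exists_wellFoundedLT (α := {f : K → ℝ // Continuous f})
  obtain ⟨H, hHc, hself, htrans, hlift⟩ :=
    @exists_hull K _ _ _ {f : K → ℝ // Continuous f} wo hwf (fun η => η.1) (fun η => η.2)
  let S : {f : K → ℝ // Continuous f} → Set {f : K → ℝ // Continuous f} := fun f =>
    {σ | ∃ x y, (∀ η, σ ∉ H η → η.1 x = η.1 y) ∧ f.1 x ≠ f.1 y}
  have hSH : ∀ f, S f ⊆ H f := by
    rintro f σ ⟨x, y, hxy, hne⟩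
    by_contra h
    exact hne (hxy f h)
  refine ⟨fun f => ⋃ σ ∈ S f, H σ, fun f => ((hHc f).mono (hSH f)).biUnion fun σ _ => hHc σ,
    fun η => ?_, fun f x y hxy => ?_⟩
  · have : {f : {f : K → ℝ // Continuous f} | η ∈ ⋃ σ ∈ S f, H σ} =
        ⋃ σ ∈ {σ | η ∈ H σ}, ⋃ x, ⋃ y, ⋃ _ : (∀ η, σ ∉ H η → η.1 x = η.1 y),
          {f : {f : K → ℝ // Continuous f} | f.1 x ≠ f.1 y} := by
      ext f
      simp only [S, mem_iUnion, mem_ofPred_eq, exists_prop]
      constructor
      · rintro ⟨σ, ⟨x, y, h1, h2⟩, h3⟩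
        exact ⟨σ, h3, x, y, h1, h2⟩
      · rintro ⟨σ, h3, x, y, h1, h2⟩
        exact ⟨σ, ⟨x, y, h1, h2⟩, h3⟩
    rw [this]
    refine isOpen_biUnion fun σ _ => isOpen_iUnion fun x => isOpen_iUnion fun y =>
      isOpen_iUnion fun _ => isOpen_ne_fun ?_ ?_
    · exact (continuous_apply x).comp continuous_subtype_val
    · exact (continuous_apply y).comp continuous_subtype_val
  · have hD : IsClosed {z | f.1 z = f.1 x ∧ ∀ η ∈ ⋃ σ ∈ S f, H σ, η.1 z = η.1 y} := by
      apply IsClosed.inter (isClosed_eq f.2 continuous_const)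
      have : {z | ∀ η ∈ ⋃ σ ∈ S f, H σ, η.1 z = η.1 y} =
          ⋂ η ∈ ⋃ σ ∈ S f, H σ, {z | η.1 z = η.1 y} := by
        ext p; simp only [mem_ofPred_eq, mem_iInter]
      change IsClosed {z | ∀ η ∈ ⋃ σ ∈ S f, H σ, η.1 z = η.1 y}
      rw [this]
      exact isClosed_biInter fun η _ => isClosed_eq η.2 continuous_const
    obtain ⟨z, hz, hz'⟩ := @transfinite_compact K _ _ {f : K → ℝ // Continuous f} wo hwf
      {z | f.1 z = f.1 x ∧ ∀ η ∈ ⋃ σ ∈ S f, H σ, η.1 z = η.1 y} hD ⟨x, rfl, hxy⟩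
      (fun σ => {z | σ.1 z = σ.1 y}) (fun σ => isClosed_eq σ.2 continuous_const) (by
        intro σ z hz hlt
        by_cases hσ : σ ∈ ⋃ σ ∈ S f, H σ
        · refine ⟨z, hz, fun j hj => ?_⟩
          rcases (@le_iff_lt_or_eq _ wo.toPartialOrder _ _).1 hj with hj | rfl
          · exact hlt j hj
          · exact hz.2 _ hσ
        · obtain ⟨y', hy1, hy2⟩ := hlift σ z y hlt
          have hσS : σ ∉ S f := fun h => hσ (mem_iUnion₂.2 ⟨σ, h, hself σ⟩)
          have hf : f.1 y' = f.1 z := by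
            by_contra hne
            exact hσS ⟨y', z, hy2, hne⟩
          refine ⟨y', ⟨hf.trans hz.1, fun η hη => ?_⟩, hy1⟩
          obtain ⟨τ, hτ, hητ⟩ := mem_iUnion₂.1 hη
          have : σ ∉ H η := fun h => hσ (mem_iUnion₂.2 ⟨τ, hτ, htrans τ η hητ h⟩)
          exact (hy2 η this).trans (hz.2 η hη))
    exact hz.1.symm.trans (hz' f)

end Pool.Agent.MP_3bf391_gt

end

-- part MP_3bf391_gt.Main
section

namespace Pool.Agent.MP_3bf391_gt

open Set Topology TopologicalSpace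

/-- The functions whose graph over the coordinates in `F` lies in the set `O`. -/
def netSet {K : Type*} [TopologicalSpace K] (F : Finset (Cp K)) (O : Set ((F → ℝ) × ℝ)) :
    Set (Cp K) :=
  {h | ∀ x, ((fun η : F => η.1.1 x), h.1 x) ∈ O}

theorem exists_uniform_nhds {K : Type*} [TopologicalSpace K] [CompactSpace K]
    (U : Set (Cp K)) (hU : IsOpen U) (f : Cp K) (hf : f ∈ U) :
    ∃ ε > 0, ∀ h : Cp K, (∀ x, |h.1 x - f.1 x| < ε) → h ∈ U := by
  let φ : C(K, ℝ) → Cp K := fun g => ⟨g, g.continuous⟩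
  have hφ : Continuous φ :=
    Continuous.subtype_mk (continuous_pi fun x => continuous_eval_const x) _
  obtain ⟨ε, hε, hb⟩ := Metric.isOpen_iff.1 (hU.preimage hφ) ⟨f.1, f.2⟩ hf
  refine ⟨ε, hε, fun h hh => ?_⟩
  have : (⟨h.1, h.2⟩ : C(K, ℝ)) ∈ Metric.ball (⟨f.1, f.2⟩ : C(K, ℝ)) ε := by
    rw [Metric.mem_ball, ContinuousMap.dist_lt_iff hε]
    intro x
    rw [Real.dist_eq]
    exact hh x
  exact hb this

theorem exists_netSet {K : Type*} [TopologicalSpace K] [CompactSpace K]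
    (f : Cp K) (A : Set (Cp K)) (hA : ∀ x y, (∀ η ∈ A, η.1 x = η.1 y) → f.1 x = f.1 y)
    (ε : ℝ) (hε : 0 < ε) :
    ∃ F : Finset (Cp K), (F : Set (Cp K)) ⊆ A ∧ ∃ t : Set (Set ((F → ℝ) × ℝ)),
      t.Finite ∧ t ⊆ countableBasis ((F → ℝ) × ℝ) ∧ f ∈ netSet F (⋃₀ t) ∧
      ∀ h ∈ netSet F (⋃₀ t), ∀ x, |h.1 x - f.1 x| < ε := by
  have hc : IsCompact {p : K × K | ε ≤ |f.1 p.1 - f.1 p.2|} :=
    (isClosed_le continuous_const
      ((f.2.comp continuous_fst).sub (f.2.comp continuous_snd)).abs).isCompact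
  obtain ⟨B, hBA, hBf, hB⟩ := hc.elim_finite_subcover_image (b := A)
    (c := fun η => {p : K × K | η.1 p.1 ≠ η.1 p.2})
    (fun η _ => isOpen_ne_fun (η.2.comp continuous_fst) (η.2.comp continuous_snd))
    (by
      rintro ⟨x, y⟩ hxy
      by_contra hcon
      simp only [mem_iUnion, mem_ofPred_eq, not_exists, not_not] at hcon hxy
      rw [hA x y (fun η hη => hcon η hη), sub_self, abs_zero] at hxy
      linarith)
  let F := hBf.toFinset
  have hF : (F : Set (Cp K)) = B := hBf.coe_toFinset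
  let Φ : K → (F → ℝ) := fun x η => η.1.1 x
  have hΦ : Continuous Φ := continuous_pi fun η => η.1.2
  have hagree : ∀ x y, Φ x = Φ y → |f.1 x - f.1 y| < ε := by
    intro x y hxy
    by_contra hcon
    have := hB (show (x, y) ∈ {p : K × K | ε ≤ |f.1 p.1 - f.1 p.2|} from not_lt.1 hcon)
    simp only [mem_iUnion, mem_ofPred_eq] at this
    obtain ⟨η, hη, hne⟩ := this
    exact hne (congrFun hxy ⟨η, hBf.mem_toFinset.2 hη⟩)
  let Bad : Set ((F → ℝ) × ℝ) := Prod.map Φ id '' {p : K × ℝ | ε ≤ |p.2 - f.1 p.1|}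
  have hBad : IsClosed Bad :=
    (hΦ.isProperMap.prodMap isProperMap_id).isClosedMap _
      (isClosed_le continuous_const (continuous_snd.sub (f.2.comp continuous_fst)).abs)
  have hGr : IsCompact (range fun x => (Φ x, f.1 x)) := isCompact_range (hΦ.prodMk f.2)
  obtain ⟨t, ht1, ht2, ht3⟩ := hGr.elim_finite_subcover_image
    (b := {s | s ∈ countableBasis ((F → ℝ) × ℝ) ∧ s ⊆ Badᶜ}) (c := fun s => s)
    (fun s hs => isOpen_of_mem_countableBasis hs.1)
    (by
      rintro _ ⟨x, rfl⟩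
      have hx : (Φ x, f.1 x) ∈ Badᶜ := by
        rintro ⟨⟨y, r⟩, hy, he⟩
        simp only [Prod.map, id, Prod.mk.injEq] at he
        simp only [mem_ofPred_eq] at hy
        rw [he.2] at hy
        exact absurd (hagree x y he.1.symm) (not_lt.2 hy)
      obtain ⟨s, hs, hxs, hsub⟩ :=
        (isBasis_countableBasis ((F → ℝ) × ℝ)).exists_subset_of_mem_open hx hBad.isOpen_compl
      exact mem_iUnion₂.2 ⟨s, ⟨hs, hsub⟩, hxs⟩)
  refine ⟨F, hF ▸ hBA, t, ht2, fun s hs => (ht1 hs).1, fun x => ?_, fun h hh x => ?_⟩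
  · obtain ⟨s, hs, hxs⟩ := mem_iUnion₂.1 (ht3 ⟨x, rfl⟩)
    exact ⟨s, hs, hxs⟩
  · obtain ⟨s, hs, hxs⟩ := hh x
    by_contra hcon
    exact (ht1 hs).2 hxs ⟨(x, h.1 x), not_lt.1 hcon, rfl⟩

theorem hereditarily_metalindelof {K : Type*} [TopologicalSpace K] [CompactSpace K]
    [PerfectlyNormalSpace K] (Y : Set (Cp K)) : IsMetalindelof Y := by
  obtain ⟨A, hAc, hAo, hAd⟩ := exists_support (K := K)
  intro 𝒰 h𝒰 hcov
  have hch : ∀ N : Set Y, ∃ U : Set Y, (∃ U' ∈ 𝒰, N ⊆ U') → U ∈ 𝒰 ∧ N ⊆ U := by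
    intro N
    by_cases h : ∃ U' ∈ 𝒰, N ⊆ U'
    · obtain ⟨U, hU⟩ := h
      exact ⟨U, fun _ => hU⟩
    · exact ⟨∅, fun h' => absurd h' h⟩
  choose ch hch using hch
  let N : (F : Finset (Cp K)) → Set (Set ((F → ℝ) × ℝ)) → Set Y := fun F t =>
    Subtype.val ⁻¹' netSet F (⋃₀ t)
  let W : Finset (Cp K) → Set Y := fun F => Subtype.val ⁻¹' ⋂ η ∈ F, {f | η ∈ A f}
  have hW : ∀ F, IsOpen (W F) := fun F =>
    (isOpen_biInter_finset fun η _ => hAo η).preimage continuous_subtype_val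
  refine ⟨{V | ∃ (F : Finset (Cp K)) (t : Set (Set ((F → ℝ) × ℝ))),
    (t.Finite ∧ t ⊆ countableBasis ((F → ℝ) × ℝ)) ∧ (∃ U' ∈ 𝒰, N F t ⊆ U') ∧
    V = ch (N F t) ∩ W F}, ?_, ?_, ?_, ?_⟩
  · rintro _ ⟨F, t, -, h, rfl⟩
    exact (h𝒰 _ (hch _ h).1).inter (hW F)
  · refine eq_univ_of_forall fun y => ?_
    obtain ⟨U, hU, hyU⟩ : y ∈ ⋃₀ 𝒰 := hcov ▸ mem_univ y
    obtain ⟨U', hU', rfl⟩ := isOpen_induced_iff.1 (h𝒰 U hU)
    obtain ⟨ε, hε, hball⟩ := exists_uniform_nhds U' hU' y.1 hyU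
    obtain ⟨F, hFA, t, htf, htb, hyN, hN⟩ := exists_netSet y.1 (A y.1) (hAd y.1) ε hε
    have h : ∃ U'' ∈ 𝒰, N F t ⊆ U'' := ⟨_, hU, fun z hz => hball z.1 (hN z.1 hz)⟩
    refine ⟨_, ⟨F, t, ⟨htf, htb⟩, h, rfl⟩, (hch _ h).2 hyN, ?_⟩
    exact mem_iInter₂.2 fun η hη => hFA hη
  · rintro _ ⟨F, t, -, h, rfl⟩
    exact ⟨_, (hch _ h).1, inter_subset_left⟩
  · intro z
    have h1 : {F : Finset (Cp K) | (F : Set (Cp K)) ⊆ A z.1}.Countable := by
      refine ((countable_ofPred_finite_subset (hAc z.1)).preimage_of_injOn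
        (f := fun F : Finset (Cp K) => (F : Set (Cp K))) Finset.coe_injective.injOn).mono ?_
      exact fun F hF => ⟨F.finite_toSet, hF⟩
    refine (h1.biUnion fun F _ =>
      (countable_ofPred_finite_subset (countable_countableBasis ((F → ℝ) × ℝ))).image
        fun t => ch (N F t) ∩ W F).mono ?_
    rintro _ ⟨⟨F, t, ht, -, rfl⟩, hz⟩
    exact mem_iUnion₂.2 ⟨F, fun η hη => mem_iInter₂.1 hz.2 η hη, t, ht, rfl⟩

end Pool.Agent.MP_3bf391_gt

end
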